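import Mathlib
import Pool.Agent.H85.LoopCover

/-!
# Mod `p` loop moves are not classified by the linking pairing of the branched cyclic cover

For every `p ≥ 5` prime to `6` the `p`-fold branched cyclic covers of the unknot and of the trefoil
knot are both integral homology spheres, but the two knots are not related by mod `p` loop moves:
these moves preserve the absolute value of the Alexander polynomial at the `p`-th roots of unity.
-/

set_option autoImplicit false

namespace Pool.Agent.Results.MP_51fc9a_gt.TrefoilUnknot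

open Pool.Agent.H85.Loop LaurentPolynomial

/-- For every `p ≥ 5` prime to `6` there are two knots in simply connected homology spheres whose
`p`-fold branched cyclic covers both have trivial `H₁`, and which are not related by any sequence
of mod `p` loop moves. -/
theorem result (p : ℕ) (h5 : 5 ≤ p) (h2 : ¬ 2 ∣ p) (h3 : ¬ 3 ∣ p) :
    ∃ (g g' : ℕ) (D : Pair g) (D' : Pair g'),
      Subsingleton D.manifoldGroup ∧ Subsingleton D'.manifoldGroup ∧
      Subsingleton (D.branchedH1 p) ∧ Subsingleton (D'.branchedH1 p) ∧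
      ¬ Related p D D' := by
  refine ⟨0, 1, unknot, trefoil, subsingleton_quotient_of_eq_top relM_refl_eq_top,
    subsingleton_quotient_of_eq_top relM_trefoil_eq_top, unknot_branchedH1 p,
    trefoil_branchedH1 h2 h3, fun h => ?_⟩
  have hp0 : p ≠ 0 := by omega
  have hpR : (0 : ℝ) < p := by exact_mod_cast Nat.pos_of_ne_zero hp0
  set θ : ℝ := 2 * Real.pi / p with hθ
  set z : ℂ := Complex.exp (θ * Complex.I) with hz
  have hz0 : z ≠ 0 := Complex.exp_ne_zero _
  let ζ : ℂˣ := Units.mk0 z hz0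
  have hζp : ζ ^ p = 1 := by
    apply Units.ext
    rw [Units.val_pow_eq_pow_val, Units.val_one]
    show z ^ p = 1
    rw [hz, ← Complex.exp_nat_mul, Complex.exp_eq_one_iff]
    refine ⟨1, ?_⟩
    rw [hθ]
    push_cast
    have : (p : ℂ) ≠ 0 := by exact_mod_cast hp0
    field_simp
  have hinv := h.absAlex_eq hp0 ζ hζp
  have e1 : unknot.absAlex ζ = 1 := by
    rw [Pair.absAlex, unknot_det, map_one, norm_one]
  have e2 : trefoil.absAlex ζ = |2 * Real.cos θ - 1| := by
    rw [Pair.absAlex, trefoil_det, map_mul, map_add, map_sub, map_one, eval₂_T, eval₂_T, eval₂_T]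
    rw [norm_mul]
    have hn : ‖((ζ ^ (-2 : ℤ) : ℂˣ) : ℂ)‖ = 1 := by
      rw [Units.val_zpow_eq_zpow_val, norm_zpow]
      show ‖z‖ ^ (-2 : ℤ) = 1
      rw [hz, Complex.norm_exp_ofReal_mul_I, one_zpow]
    rw [hn, one_mul]
    have e3 : ((ζ ^ (2 : ℤ) : ℂˣ) : ℂ) - ((ζ ^ (1 : ℤ) : ℂˣ) : ℂ) + 1
        = z * ((2 * Real.cos θ - 1 : ℝ) : ℂ) := by
      rw [Units.val_zpow_eq_zpow_val, Units.val_zpow_eq_zpow_val]
      show z ^ (2 : ℤ) - z ^ (1 : ℤ) + 1 = _
      have h4 : ((2 * Real.cos θ - 1 : ℝ) : ℂ) = z + z⁻¹ - 1 := by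
        push_cast
        rw [Complex.cos, hz, ← Complex.exp_neg]
        ring_nf
      rw [h4, zpow_one, mul_sub, mul_add, mul_inv_cancel₀ hz0]
      rw [show (2 : ℤ) = ((2 : ℕ) : ℤ) from rfl, zpow_natCast]
      ring
    rw [e3, norm_mul, hz, Complex.norm_exp_ofReal_mul_I, one_mul, Complex.norm_real,
      Real.norm_eq_abs]
  rw [e1, e2] at hinv
  have hθ0 : 0 < θ := by positivity
  have hθ1 : θ < Real.pi / 2 := by
    rw [hθ, div_lt_div_iff₀ hpR two_pos]
    have : (5 : ℝ) ≤ p := by exact_mod_cast h5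
    nlinarith [Real.pi_pos]
  have hc0 : 0 < Real.cos θ := Real.cos_pos_of_mem_Ioo ⟨by linarith, hθ1⟩
  have hc1 : Real.cos θ < 1 := by
    have := Real.cos_lt_cos_of_nonneg_of_le_pi (le_refl (0 : ℝ)) (by linarith [Real.pi_pos]) hθ0
    rwa [Real.cos_zero] at this
  rcases abs_choice (2 * Real.cos θ - 1) with hh | hh
  · rw [hh] at hinv; linarith
  · rw [hh] at hinv; linarith

end Pool.Agent.Results.MP_51fc9a_gt.TrefoilUnknot
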